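import Pool.Agent.H15.FOS.Targets
import Pool.Agent.H27.LV.Curve

/-!
# MP_70ba79_ag: from local bounds to the degree (board `fos_modules`, row SUX)
-/

set_option autoImplicit false

open MvPolynomial SC Pool.Agent.H27.LV
open Pool.Agent.H84.SM (dp cr dt)
open Pool.Agent.H92.SF Pool.Agent.H3.SF Pool.Agent.H15.FOS

namespace Pool.Agent.H94.FOS

theorem fos_SUX : T_SUX := by
  classical
  intro k K _ _ _ _ _ _ htr m C g x _ S hS hSC
  have hfin := Pool.Agent.H27.LV.pfi k K htr (Fin 3) x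
  obtain ⟨hgfin, hgsum⟩ := Pool.Agent.H27.LV.pfm k K htr g
  obtain ⟨W, hW⟩ : ∃ W : Finset (DV k K), W = S ∪ (hfin.toFinset ∪ hgfin.toFinset) := ⟨_, rfl⟩
  have hSW : S ⊆ W := by rw [hW]; exact Finset.subset_union_left
  have h1 : Pool.Agent.H27.LV.deg k x = ∑ v ∈ W, poleOrder v x := by
    unfold Pool.Agent.H27.LV.deg
    refine finsum_eq_sum_of_support_subset _ (fun v hv => ?_)
    rw [hW, Finset.coe_union, Finset.coe_union]
    refine Or.inr (Or.inl ?_)
    rw [Set.Finite.coe_toFinset]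
    exact hv
  have h2 : ∑ v ∈ W, v.ord g = 0 := by
    rw [← hgsum]
    refine (finsum_eq_sum_of_support_subset _ (fun v hv => ?_)).symm
    rw [hW, Finset.coe_union, Finset.coe_union]
    refine Or.inr (Or.inr ?_)
    rw [Set.Finite.coe_toFinset]
    exact hv
  have h3 : (m : ℤ) * Pool.Agent.H27.LV.deg k x = ∑ v ∈ W, (v.ord g + m * poleOrder v x) := by
    rw [h1, Finset.sum_add_distrib, h2, ← Finset.mul_sum, zero_add]
    push_cast
    rfl
  have h4 : ∑ v ∈ W, (v.ord g + m * poleOrder v x) = ∑ v ∈ S, (v.ord g + m * poleOrder v x) := by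
    refine (Finset.sum_subset hSW (fun v _ hv => ?_)).symm
    rw [hS v hv]
    ring
  have h5 : ∑ v ∈ S, (v.ord g + m * poleOrder v x) ≤ S.card • (C : ℤ) :=
    Finset.sum_le_card_nsmul S _ _ hSC
  rw [← h4, ← h3, nsmul_eq_mul, mul_comm (S.card : ℤ)] at h5
  exact_mod_cast h5

end Pool.Agent.H94.FOS
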